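import Pool.Agent.Helper29.H2.St2

set_option autoImplicit false

open MeasureTheory

namespace Pool.Agent.Helper29.H2

noncomputable section

private def chg (x : ℝ) : ℝ :=
  (Set.Ico (0 : ℝ) 1).indicator (fun x => Real.exp ((x - 1 / 2) / 4)) x

private lemma chg_nonneg (x : ℝ) : 0 ≤ chg x :=
  Set.indicator_nonneg (fun _ _ => (Real.exp_pos _).le) _

private lemma chg_int : Integrable chg volume := by
  unfold chg
  rw [integrable_indicator_iff measurableSet_Ico]
  exact (Continuous.integrableOn_Icc (by fun_prop)).mono_set Set.Ico_subset_Icc_self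

private lemma chg_val : ∫ x, chg x = 4 * (Real.exp (1 / 8) - Real.exp (-(1 / 8))) := by
  unfold chg
  rw [integral_indicator measurableSet_Ico, ← integral_Icc_eq_integral_Ico,
    integral_Icc_eq_integral_Ioc, ← intervalIntegral.integral_of_le zero_le_one]
  have h : ∀ x : ℝ, HasDerivAt (fun x => 4 * Real.exp ((x - 1 / 2) / 4))
      (Real.exp ((x - 1 / 2) / 4)) x := by
    intro x
    have h1 : HasDerivAt (fun x : ℝ => (x - 1 / 2) / 4) (1 / 4) x :=
      ((hasDerivAt_id x).sub_const (1 / 2)).div_const 4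
    exact ((h1.exp).const_mul 4).congr_deriv (by ring)
  rw [intervalIntegral.integral_eq_sub_of_hasDerivAt (fun x _ => h x)
    (Continuous.intervalIntegrable (by fun_prop) _ _)]
  have e1 : ((1 : ℝ) - 1 / 2) / 4 = 1 / 8 := by norm_num
  have e2 : ((0 : ℝ) - 1 / 2) / 4 = -(1 / 8) := by norm_num
  rw [e1, e2]
  ring

private lemma chg_le : ∫ x, chg x ≤ 1 + 0.002706 := by
  rw [chg_val]
  have h1 := Real.exp_bound (x := 1 / 8) (by rw [abs_of_pos] <;> norm_num) (n := 4) (by norm_num)
  have h2 := Real.exp_bound (x := -(1 / 8)) (by rw [abs_neg, abs_of_pos] <;> norm_num) (n := 4)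
    (by norm_num)
  rw [abs_le] at h1 h2
  simp only [Finset.sum_range_succ, Finset.sum_range_zero, Nat.factorial, abs_neg] at h1 h2
  rw [abs_of_pos (by norm_num)] at h1 h2
  norm_num at h1 h2 ⊢
  linarith [h1.2, h2.1]

private lemma ch_exp : Real.exp (-(9.47 : ℝ)) ≤ 1 / 10000 := by
  rw [Real.exp_neg, inv_le_comm₀ (Real.exp_pos _) (by norm_num)]
  have h1 : Real.exp (9.47 : ℝ) = Real.exp 1 ^ 9 * Real.exp 0.47 := by
    rw [← Real.exp_nat_mul, ← Real.exp_add]
    norm_num
  rw [h1]
  have h2 := Real.exp_one_gt_d9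
  have h3 := Real.add_one_le_exp (0.47 : ℝ)
  calc ((1 : ℝ) / 10000)⁻¹ ≤ 2.7182 ^ 9 * (0.47 + 1) := by norm_num
    _ ≤ Real.exp 1 ^ 9 * Real.exp 0.47 := by
        gcongr
        linarith

theorem hCh : StCh := by
  intro κ _ hκ
  set F : (κ → ℝ) → ℝ := fun θ => Real.exp (-19) * ∏ h, chg (θ h) with hF
  have hprod : Integrable (fun θ : κ → ℝ => ∏ h, chg (θ h)) volume :=
    Integrable.fintype_prod (fun _ => chg_int)
  have hFi : Integrable F volume := hprod.const_mul _
  have hF0 : ∀ θ, 0 ≤ F θ := fun θ =>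
    mul_nonneg (Real.exp_pos _).le (Finset.prod_nonneg fun h _ => chg_nonneg _)
  have h1 : (Bd κ 76) ⊆ {θ | 1 ≤ F θ} := by
    rintro θ ⟨h2, h3⟩
    show 1 ≤ Real.exp (-19) * ∏ h, chg (θ h)
    have h4 : ∏ h, chg (θ h) = Real.exp (∑ h, (θ h - 1 / 2) / 4) := by
      rw [Real.exp_sum]
      refine Finset.prod_congr rfl fun h _ => ?_
      unfold chg
      rw [Set.indicator_of_mem (show θ h ∈ Set.Ico (0 : ℝ) 1 from h2 h)]
    rw [h4, ← Real.exp_add]
    refine Real.one_le_exp ?_
    rw [← Finset.sum_div, Finset.sum_sub_distrib, Finset.sum_const, Finset.card_univ, hκ]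
    rw [hκ] at h3
    push_cast at h3
    simp only [nsmul_eq_mul]
    push_cast
    linarith
  have hI : ∫ θ, F θ ≤ 1 / 10000 := by
    rw [hF, integral_const_mul, integral_fintype_prod_volume_eq_pow (ι := κ) chg, hκ]
    have h5 : 0 ≤ ∫ x, chg x := integral_nonneg chg_nonneg
    have h6 : (∫ x, chg x) ≤ Real.exp 0.002706 := by
      have := Real.add_one_le_exp (0.002706 : ℝ)
      linarith [chg_le]
    calc Real.exp (-19) * (∫ x, chg x) ^ 3520
        ≤ Real.exp (-19) * Real.exp 0.002706 ^ 3520 := by gcongr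
      _ = Real.exp (-19 + 3520 * 0.002706) := by
          rw [← Real.exp_nat_mul, ← Real.exp_add]
          norm_num
      _ ≤ Real.exp (-(9.47 : ℝ)) := Real.exp_le_exp.2 (by norm_num)
      _ ≤ _ := ch_exp
  have h2 : volume (Bd κ 76) ≤ ENNReal.ofReal (∫ θ, F θ) := by
    rw [ofReal_integral_eq_lintegral_ofReal hFi (Filter.Eventually.of_forall hF0)]
    calc volume (Bd κ 76) ≤ volume {θ | 1 ≤ ENNReal.ofReal (F θ)} := by
          refine measure_mono fun θ hθ => ?_
          have := h1 hθ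
          show 1 ≤ ENNReal.ofReal (F θ)
          rw [← ENNReal.ofReal_one]
          exact ENNReal.ofReal_le_ofReal this
      _ = 1 * volume {θ | 1 ≤ ENNReal.ofReal (F θ)} := (one_mul _).symm
      _ ≤ ∫⁻ θ, ENNReal.ofReal (F θ) :=
          mul_meas_ge_le_lintegral₀ hFi.1.aemeasurable.ennreal_ofReal 1
  exact (ENNReal.toReal_le_of_le_ofReal (integral_nonneg hF0) h2).trans hI

end

end Pool.Agent.Helper29.H2
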