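import Pool.Agent.Helper29.H2.St2

set_option autoImplicit false

open MeasureTheory Finset

namespace Pool.Agent.Helper29.H2

noncomputable section

private lemma eo_sum_erase {ι : Type} [Fintype ι] [DecidableEq ι] (m : ι) (f : ι → ℕ) :
    ∑ h ∈ univ.erase m, f h = ∑ h : {h : ι // h ≠ m}, f h :=
  Finset.sum_subtype (univ.erase m) (p := fun h => h ≠ m) (by simp) f

private lemma eo_prod_erase {ι : Type} [Fintype ι] [DecidableEq ι] (m : ι) (f : ι → ℝ) :
    ∏ h ∈ univ.erase m, f h = ∏ h : {h : ι // h ≠ m}, f h :=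
  Finset.prod_subtype (univ.erase m) (p := fun h => h ≠ m) (by simp) f

/-- splitting off the coordinate `m` -/
private lemma eo_split {ι : Type} [Fintype ι] [DecidableEq ι] (m : ι) (N : ℕ)
    (f : (ι → ℕ) → ℝ) (F : ℕ → ({h : ι // h ≠ m} → ℕ) → ℝ)
    (hf : ∀ i, f i = F (i m) (fun h => i h)) :
    ∑ i ∈ Fintype.piFinset (fun _ : ι => range N), f i =
      ∑ j ∈ range N, ∑ i ∈ Fintype.piFinset (fun _ : {h : ι // h ≠ m} => range N), F j i := by
  rw [← Finset.sum_product']
  refine Finset.sum_equiv (Equiv.funSplitAt m ℕ) (fun i => ?_) (fun i _ => ?_)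
  · simp only [Fintype.mem_piFinset, Finset.mem_product, Equiv.funSplitAt_apply]
    constructor
    · intro h
      exact ⟨h m, fun a => h a⟩
    · rintro ⟨h1, h2⟩ a
      by_cases ha : a = m
      · rw [ha]; exact h1
      · exact h2 ⟨a, ha⟩
  · rw [hf]
    rfl

theorem hEo : StEo := by
  intro hV hC ι _ _ N n0 s δ g H m hN hn0 hH hδ1 hδ hcard
  have hN' : (0 : ℝ) < N := by exact_mod_cast hN
  set κ := {h : ι // h ≠ m}
  set c : ℝ := (1 - δ) * (1 / (N : ℝ)) ^ (Fintype.card ι + 1) with hc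
  have hc0 : 0 ≤ c := mul_nonneg (by linarith) (by positivity)
  have hκ : Fintype.card κ = Fintype.card ι - 1 := by
    rw [Fintype.card_subtype_compl, Fintype.card_subtype_eq]
  -- the summand for given cells
  have hterm : ∀ (i : ι → ℕ) (i' : ℕ), i ∈ Fintype.piFinset (fun _ : ι => range N) →
      i' ∈ range N →
      ((H (∑ h : κ, i h + i m) : ℝ) * g (i m)) * ((H (∑ h : κ, i h + i') : ℝ) * g i') *
        (∏ h : κ, (g (i h) : ℝ) ^ 2) * c ≤
      ∑ t1 ∈ range N, ∑ t2 ∈ range N, GF N g H i t1 * GF N g H (Function.update i m i') t2 *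
        (volume (c2 N m i i' t1 t2)).toReal := by
    intro i i' _ _
    have e1 : ∀ t1 ∈ range N, ∀ t2 ∈ range N,
        GF N g H i t1 * GF N g H (Function.update i m i') t2 *
          (volume (c2 N m i i' t1 t2)).toReal =
        (((H (∑ h : κ, i h + i m) : ℝ) * g (i m)) * ((H (∑ h : κ, i h + i') : ℝ) * g i') *
          (∏ h : κ, (g (i h) : ℝ) ^ 2)) * (volume (c2 N m i i' t1 t2)).toReal := by
      intro t1 ht1 t2 ht2
      rw [mem_range] at ht1 ht2
      unfold GF
      rw [if_pos ht1, if_pos ht2]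
      congr 1
      have s1 : ∑ h, i h = ∑ h : κ, i h + i m := by
        rw [← Finset.add_sum_erase univ _ (mem_univ m), eo_sum_erase, add_comm]
      have s2 : ∑ h, Function.update i m i' h = ∑ h : κ, i h + i' := by
        rw [← Finset.add_sum_erase univ _ (mem_univ m), eo_sum_erase, add_comm,
          Function.update_self]
        congr 1
        exact Finset.sum_congr rfl fun h _ => Function.update_of_ne h.2 _ _
      have p1 : ∏ h, (g (i h) : ℝ) = g (i m) * ∏ h : κ, (g (i h) : ℝ) := by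
        rw [← Finset.mul_prod_erase univ _ (mem_univ m), eo_prod_erase m (fun h => (g (i h) : ℝ))]
      have p2 : ∏ h, (g (Function.update i m i' h) : ℝ) = g i' * ∏ h : κ, (g (i h) : ℝ) := by
        rw [← Finset.mul_prod_erase univ _ (mem_univ m),
          eo_prod_erase m (fun h => (g (Function.update i m i' h) : ℝ)), Function.update_self]
        congr 1
        exact Finset.prod_congr rfl fun h _ => by rw [Function.update_of_ne h.2]
      rw [s1, s2, p1, p2, Finset.prod_pow]
      ring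
    rw [Finset.sum_congr rfl fun t1 ht1 => Finset.sum_congr rfl fun t2 ht2 => e1 t1 ht1 t2 ht2]
    simp_rw [← Finset.mul_sum]
    set A : ℝ := ((H (∑ h : κ, i h + i m) : ℝ) * g (i m)) * ((H (∑ h : κ, i h + i') : ℝ) * g i') *
          (∏ h : κ, (g (i h) : ℝ) ^ 2) with hA
    have hA0 : 0 ≤ A := by positivity
    by_cases hz : A = 0
    · rw [hz]; simp
    refine mul_le_mul_of_nonneg_left ?_ hA0
    have h1 : H (∑ h : κ, i h + i m) ≠ 0 := by
      intro h
      apply hz
      rw [hA, h]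
      simp
    have h2 : H (∑ h : κ, i h + i') ≠ 0 := by
      intro h
      apply hz
      rw [hA, h]
      simp
    have h3 : ∑ h : κ, i h + i m < n0 := by
      by_contra hcon
      exact h1 (hH _ (not_lt.1 hcon))
    have h4 : ∑ h : κ, i h + i' < n0 := by
      by_contra hcon
      exact h2 (hH _ (not_lt.1 hcon))
    have h5 : ∑ h ∈ univ.erase m, i h = ∑ h : κ, i h := eo_sum_erase m i
    refine hV ι N s δ m i i' hN hδ ?_ ?_
    · rw [h5]; omega
    · rw [h5]; omega
  have h1 : ∑ i ∈ Fintype.piFinset (fun _ : ι => range N), ∑ i' ∈ range N,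
      ((H (∑ h : κ, i h + i m) : ℝ) * g (i m)) * ((H (∑ h : κ, i h + i') : ℝ) * g i') *
        (∏ h : κ, (g (i h) : ℝ) ^ 2) * c ≤ OG N (GF N g H : (ι → ℕ) → ℕ → ℝ) m := by
    unfold OG
    exact Finset.sum_le_sum fun i hi => Finset.sum_le_sum fun i' hi' => hterm i i' hi hi'
  refine le_trans (le_of_eq ?_) h1
  have hK : ∀ S, ∑ j ∈ range N, (H (S + j) : ℝ) * g j = (Kk g H n0 S : ℝ) := by
    intro S
    unfold Kk
    push_cast
    have hsub : range (n0 - S) ⊆ range N := Finset.range_subset_range.2 (by omega)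
    rw [← Finset.sum_subset hsub]
    · exact Finset.sum_congr rfl fun j _ => mul_comm _ _
    · intro j _ hj
      rw [mem_range, not_lt] at hj
      rw [hH (S + j) (by omega)]
      simp
  rw [eo_split m N _ (fun j i => ∑ i' ∈ range N,
      ((H (∑ h : κ, i h + j) : ℝ) * g j) * ((H (∑ h : κ, i h + i') : ℝ) * g i') *
        (∏ h : κ, (g (i h) : ℝ) ^ 2) * c) (fun i => rfl), Finset.sum_comm]
  have h2 : ∀ i : κ → ℕ, ∑ j ∈ range N, ∑ i' ∈ range N,
      ((H (∑ h : κ, i h + j) : ℝ) * g j) * ((H (∑ h : κ, i h + i') : ℝ) * g i') *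
        (∏ h : κ, (g (i h) : ℝ) ^ 2) * c =
      (((Kk g H n0 (∑ h : κ, i h) : ℕ) : ℝ) ^ 2 * ∏ h : κ, (g (i h) : ℝ) ^ 2) * c := by
    intro i
    rw [← hK]
    rw [sq, Finset.sum_mul_sum, Finset.sum_mul, Finset.sum_mul]
    refine Finset.sum_congr rfl fun j _ => ?_
    rw [Finset.sum_mul, Finset.sum_mul]
  rw [Finset.sum_congr rfl fun i _ => h2 i, ← Finset.sum_mul]
  have h3 := hC κ g (fun S => ((Kk g H n0 S : ℕ) : ℝ) ^ 2) N n0 hn0 (by
    intro S hS
    have : Kk g H n0 S = 0 := by
      unfold Kk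
      rw [Nat.sub_eq_zero_of_le hS, Finset.range_zero, Finset.sum_empty]
    simp [this])
  rw [h3, hc, hκ]
  unfold BB
  push_cast
  rw [one_div, inv_pow, div_eq_mul_inv]
  ring

end

end Pool.Agent.Helper29.H2
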