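import Pool.Agent.Helper29.H2.St2

set_option autoImplicit false

open MeasureTheory Finset

namespace Pool.Agent.Helper29.H2

noncomputable section

private def v2c : Measure ℝ := volume.restrict (Set.Ico (0 : ℝ) 1)

private instance : IsProbabilityMeasure v2c :=
  ⟨by unfold v2c; rw [Measure.restrict_apply_univ, Real.volume_Ico]; norm_num⟩

private lemma v2_pi {α : Type} [Fintype α] :
    Measure.pi (fun _ : α => v2c) =
      (volume : Measure (α → ℝ)).restrict (Set.univ.pi fun _ => Set.Ico (0 : ℝ) 1) := by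
  unfold v2c
  rw [volume_pi, Measure.restrict_pi_pi]

private lemma v2_map {ι : Type} [Fintype ι] [DecidableEq ι] (m : ι) :
    (Measure.pi (fun _ : Option ι => v2c)).map
      (fun (θ : Option ι → ℝ) (h : {h : ι // h ≠ m}) => θ (some (h : ι))) =
      Measure.pi (fun _ : {h : ι // h ≠ m} => v2c) := by
  symm
  have hmeas : Measurable (fun (θ : Option ι → ℝ) (h : {h : ι // h ≠ m}) => θ (some (h : ι))) :=
    measurable_pi_lambda _ fun h => measurable_pi_apply _
  refine Measure.pi_eq fun s hs => ?_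
  rw [Measure.map_apply hmeas (MeasurableSet.univ_pi hs)]
  set s' : Option ι → Set ℝ := fun o => o.elim Set.univ
    (fun h => if hh : h ≠ m then s ⟨h, hh⟩ else Set.univ) with hs'
  have h1 : (fun (θ : Option ι → ℝ) (h : {h : ι // h ≠ m}) => θ (some (h : ι))) ⁻¹'
      (Set.univ.pi s) = Set.univ.pi s' := by
    ext θ
    simp only [Set.mem_preimage, Set.mem_pi, Set.mem_univ, true_imp_iff]
    constructor
    · intro h o
      cases o with
      | none => exact Set.mem_univ _
      | some a =>
        by_cases ha : a ≠ m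
        · have := h ⟨a, ha⟩
          simpa [hs', ha] using this
        · rw [not_not] at ha
          subst ha
          simp [hs']
    · intro h a
      have := h (some a)
      simpa [hs', a.2] using this
  rw [h1, Measure.pi_pi, Fintype.prod_option]
  have h2 : v2c (s' none) = 1 := by
    rw [hs']
    exact measure_univ
  rw [h2, one_mul, ← Finset.mul_prod_erase univ _ (mem_univ m)]
  have h3 : v2c (s' (some m)) = 1 := by
    have : s' (some m) = Set.univ := by simp [hs']
    rw [this]
    exact measure_univ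
  rw [h3, one_mul]
  rw [Finset.prod_subtype (univ.erase m) (p := fun h => h ≠ m) (by simp)
    (fun h => v2c (s' (some h)))]
  refine Finset.prod_congr rfl fun h _ => ?_
  congr 1
  simp [hs', h.2]

/-- the good part of the unit cube -/
private def v2T (ι : Type) [Fintype ι] [DecidableEq ι] (m : ι) (s : ℕ) : Set (Option ι → ℝ) :=
  {θ | (∀ o, 0 ≤ θ o ∧ θ o < 1) ∧
    ∑ h : {h : ι // h ≠ m}, θ (some (h : ι)) < (Fintype.card {h : ι // h ≠ m} : ℝ) / 2 + s}

private lemma v2_vol {ι : Type} [Fintype ι] [DecidableEq ι] (m : ι) (s : ℕ) {δ : ℝ}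
    (hδ : (volume (Bd {h : ι // h ≠ m} s)).toReal ≤ δ) :
    1 - δ ≤ (volume (v2T ι m s)).toReal := by
  set κ := {h : ι // h ≠ m}
  set c : ℝ := (Fintype.card κ : ℝ) / 2 + s with hc
  set π : (Option ι → ℝ) → (κ → ℝ) := fun θ h => θ (some (h : ι)) with hπ
  have hmeas : Measurable π := measurable_pi_lambda _ fun h => measurable_pi_apply _
  have hsum : Measurable fun θ : κ → ℝ => ∑ h, θ h :=
    Finset.measurable_sum _ fun h _ => measurable_pi_apply h
  set L : Set (κ → ℝ) := {θ | ∑ h, θ h < c} with hL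
  have hLm : MeasurableSet L := measurableSet_lt hsum measurable_const
  have h1 : volume (v2T ι m s) = Measure.pi (fun _ : κ => v2c) L := by
    rw [← v2_map m, Measure.map_apply hmeas hLm, v2_pi, Measure.restrict_apply (hmeas hLm)]
    congr 1
    ext θ
    simp only [v2T, Set.mem_ofPred_eq, Set.mem_inter_iff, Set.mem_preimage, Set.mem_pi,
      Set.mem_univ, true_imp_iff, Set.mem_Ico, hL, hπ, hc]
    tauto
  have h2 : Measure.pi (fun _ : κ => v2c) Lᶜ = volume (Bd κ s) := by
    rw [v2_pi, Measure.restrict_apply hLm.compl]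
    congr 1
    ext θ
    simp only [Bd, Set.mem_ofPred_eq, Set.mem_inter_iff, Set.mem_compl_iff, Set.mem_pi,
      Set.mem_univ, true_imp_iff, Set.mem_Ico, hL, not_lt, hc]
    tauto
  have h3 : (Measure.pi (fun _ : κ => v2c) L).toReal =
      1 - (Measure.pi (fun _ : κ => v2c) Lᶜ).toReal := by
    have h4 := prob_compl_eq_one_sub (μ := Measure.pi (fun _ : κ => v2c)) hLm.compl
    rw [compl_compl] at h4
    rw [h4, ENNReal.toReal_sub_of_le prob_le_one ENNReal.one_ne_top, ENNReal.toReal_one]
  rw [h1, h3, h2]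
  linarith

theorem hV2 : StV2 := by
  intro ι _ _ N s δ m i i' hN hδ h1 h2
  have hN' : (0 : ℝ) < N := by exact_mod_cast hN
  set io : Option ι → ℝ := fun o => o.elim (i' : ℝ) (fun h => (i h : ℝ)) with hio
  set φ : (Option ι → ℝ) → (Option ι → ℝ) := fun u => (N : ℝ) • u + (-io) with hφ
  -- volume of the good set
  have hvol : volume (φ ⁻¹' (v2T ι m s)) =
      ENNReal.ofReal ((1 / (N : ℝ)) ^ (Fintype.card ι + 1)) * volume (v2T ι m s) := by
    have e1 : φ ⁻¹' (v2T ι m s) =
        (fun u : Option ι → ℝ => (N : ℝ) • u) ⁻¹' ((fun v => v + (-io)) ⁻¹' (v2T ι m s)) := rfl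
    rw [e1, Measure.addHaar_preimage_smul volume hN'.ne', measure_preimage_add_right]
    congr 2
    rw [Module.finrank_fintype_fun_eq_card, Fintype.card_option, abs_of_pos (by positivity),
      one_div, inv_pow]
  -- inclusion
  have hKN : (Fintype.card {h : ι // h ≠ m}) = Fintype.card ι - 1 := by
    rw [Fintype.card_subtype_compl, Fintype.card_subtype_eq]
  have hsub : φ ⁻¹' (v2T ι m s) ⊆
      ⋃ t1 ∈ range N, ⋃ t2 ∈ range N, c2 N m i i' t1 t2 := by
    intro u hu
    obtain ⟨hu1, hu2⟩ := hu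
    have hsome : ∀ h : ι, 0 ≤ (N : ℝ) * u (some h) - i h ∧ (N : ℝ) * u (some h) - i h < 1 := by
      intro h
      have := hu1 (some h)
      simpa [hφ, hio, sub_eq_add_neg] using this
    have hnone : 0 ≤ (N : ℝ) * u none - i' ∧ (N : ℝ) * u none - i' < 1 := by
      have := hu1 none
      simpa [hφ, hio, sub_eq_add_neg] using this
    have hsum : ∑ h ∈ univ.erase m, ((N : ℝ) * u (some h) - i h) <
        (Fintype.card {h : ι // h ≠ m} : ℝ) / 2 + s := by
      rw [Finset.sum_subtype (univ.erase m) (p := fun h => h ≠ m) (by simp)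
        (fun h => (N : ℝ) * u (some h) - i h)]
      refine lt_of_eq_of_lt ?_ hu2
      refine Finset.sum_congr rfl fun h _ => ?_
      simp [hφ, hio, sub_eq_add_neg]
    have hpos : ∀ o, 0 ≤ u o := by
      intro o
      cases o with
      | none =>
        have h3 := hnone.1
        have h4 : (0 : ℝ) ≤ i' := Nat.cast_nonneg _
        by_contra hneg
        push Not at hneg
        nlinarith [mul_neg_of_pos_of_neg hN' hneg]
      | some a =>
        have h3 := (hsome a).1
        have h4 : (0 : ℝ) ≤ i a := Nat.cast_nonneg _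
        by_contra hneg
        push Not at hneg
        nlinarith [mul_neg_of_pos_of_neg hN' hneg]
    rw [Finset.sum_sub_distrib, ← Finset.mul_sum, hKN] at hsum
    have h1' : 2 * ((∑ h ∈ univ.erase m, (i h : ℝ)) + i m + 1) + ((Fintype.card ι - 1 : ℕ) : ℝ) +
        2 * s ≤ 2 * N := by exact_mod_cast h1
    have h2' : 2 * ((∑ h ∈ univ.erase m, (i h : ℝ)) + i' + 1) + ((Fintype.card ι - 1 : ℕ) : ℝ) +
        2 * s ≤ 2 * N := by exact_mod_cast h2
    have ht1 : (N : ℝ) * ∑ h, u (some h) < N := by
      rw [← Finset.add_sum_erase univ _ (mem_univ m), mul_add]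
      linarith [(hsome m).2]
    have ht2 : (N : ℝ) * (∑ h ∈ univ.erase m, u (some h) + u none) < N := by
      rw [mul_add]
      linarith [hnone.2]
    have hp1 : 0 ≤ (N : ℝ) * ∑ h, u (some h) :=
      mul_nonneg hN'.le (Finset.sum_nonneg fun h _ => hpos _)
    have hp2 : 0 ≤ (N : ℝ) * (∑ h ∈ univ.erase m, u (some h) + u none) :=
      mul_nonneg hN'.le (add_nonneg (Finset.sum_nonneg fun h _ => hpos _) (hpos _))
    simp only [Set.mem_iUnion, exists_prop, Finset.mem_range]
    refine ⟨⌊(N : ℝ) * ∑ h, u (some h)⌋₊, (Nat.floor_lt hp1).2 ht1,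
      ⌊(N : ℝ) * (∑ h ∈ univ.erase m, u (some h) + u none)⌋₊, (Nat.floor_lt hp2).2 ht2, ?_⟩
    refine ⟨hpos, fun h => ?_, ?_, rfl, rfl⟩
    · rw [Nat.floor_eq_iff (mul_nonneg hN'.le (hpos _))]
      have := hsome h
      constructor <;> linarith [this.1, this.2]
    · rw [Nat.floor_eq_iff (mul_nonneg hN'.le (hpos _))]
      constructor <;> linarith [hnone.1, hnone.2]
  -- finiteness
  have hfin : ∀ t1 t2, volume (c2 N m i i' t1 t2) ≠ ⊤ := by
    intro t1 t2
    have hbox : c2 N m i i' t1 t2 ⊆
        Set.univ.pi fun o => Set.Icc (0 : ℝ) ((io o + 1) / N) := by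
      rintro u ⟨hu0, hu1, hu2, -, -⟩ o -
      refine ⟨hu0 o, ?_⟩
      rw [le_div_iff₀ hN', mul_comm]
      cases o with
      | none =>
        have := Nat.lt_floor_add_one ((N : ℝ) * u none)
        rw [hu2] at this
        exact this.le
      | some a =>
        have := Nat.lt_floor_add_one ((N : ℝ) * u (some a))
        rw [hu1 a] at this
        exact this.le
    refine ne_top_of_le_ne_top ?_ (measure_mono hbox)
    exact (isCompact_univ_pi fun o => isCompact_Icc).measure_lt_top.ne
  have hle : volume (φ ⁻¹' (v2T ι m s)) ≤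
      ∑ t1 ∈ range N, ∑ t2 ∈ range N, volume (c2 N m i i' t1 t2) :=
    (measure_mono hsub).trans ((measure_biUnion_finset_le _ _).trans
      (Finset.sum_le_sum fun t1 _ => measure_biUnion_finset_le _ _))
  have hsumtop : ∑ t1 ∈ range N, ∑ t2 ∈ range N, volume (c2 N m i i' t1 t2) ≠ ⊤ :=
    ENNReal.sum_ne_top.2 fun t1 _ => ENNReal.sum_ne_top.2 fun t2 _ => hfin t1 t2
  have h3 := ENNReal.toReal_mono hsumtop hle
  rw [hvol, ENNReal.toReal_mul, ENNReal.toReal_ofReal (by positivity),
    ENNReal.toReal_sum (fun t1 _ => ENNReal.sum_ne_top.2 fun t2 _ => hfin t1 t2)] at h3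
  have h4 : ∑ t1 ∈ range N, (∑ t2 ∈ range N, volume (c2 N m i i' t1 t2)).toReal =
      ∑ t1 ∈ range N, ∑ t2 ∈ range N, (volume (c2 N m i i' t1 t2)).toReal :=
    Finset.sum_congr rfl fun t1 _ => ENNReal.toReal_sum fun t2 _ => hfin t1 t2
  rw [h4] at h3
  refine le_trans ?_ h3
  rw [mul_comm (1 - δ)]
  exact mul_le_mul_of_nonneg_left (v2_vol m s hδ) (by positivity)

end

end Pool.Agent.Helper29.H2
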